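import Pool.Agent.Run7.h848.XG.Dual

/-!
# Kimura-finite, or exponentially large Grothendieck groups

Let `𝒜` be a smooth proper dg category over the field `k`, `b ≥ 1` the dimension of its periodic cyclic
homology (characteristic zero; in positive characteristic: of its topological periodic cyclic
homology), and suppose that the noncommutative sign conjecture holds for `𝒜` (the projector to the even
part is induced by a class in `K_0(𝒜^op ⊗ 𝒜)_ℚ`; it is known for instance for `perf_dg(X)` if it is known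
for `X`). Let `ρ(n)` be the rank of `K_0((𝒜^op ⊗ 𝒜)^(⊗ n))` modulo numerical equivalence.

**Theorem.** (1) Suppose that `K_0((𝒜^op ⊗ 𝒜)^(⊗ m))_ℚ` contains a numerically trivial endomorphism of
`𝒜^(⊗ m)` which is not nilpotent. Then, for ALL `n`,

  `dim K_0((𝒜^op ⊗ 𝒜)^(⊗ m n))_ℚ ≥ ∑ i ≤ n, (n choose i) ρ(m (n - i))`.

(2) The sum is at least `(b ^ (2 m) + 1) ^ n / (m n + 1) ^ (b ^ 2)`, for all `m`, `n`.

(3) If `U(𝒜)_ℚ` is not Kimura-finite then there is a real number `c > b ^ 2` with
`dim K_0((𝒜^op ⊗ 𝒜)^(⊗ n))_ℚ ≥ c ^ n` for all sufficiently large `n`.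

So `U(𝒜)_ℚ` is Kimura-finite if `liminf (dim K_0((𝒜^op ⊗ 𝒜)^(⊗ n))_ℚ) ^ (1 / n) ≤ b ^ 2`; the logarithm of the
numerical rank, divided by `n`, converges to `log b ^ 2`. (If no Schur functor kills `U(𝒜)_ℚ` then
`dim K_0((𝒜^op ⊗ 𝒜)^(⊗ n))_ℚ ≥ n!` is clear; the theorem is about the other case.)

The setting. `C` is the `ℚ`-linear rigid symmetric monoidal category `NChow(k)_ℚ` of the problem,
`End(U(k)_ℚ) = K_0(k)_ℚ = ℚ`, `T = U(𝒜)_ℚ`, `Tᘁ = U(𝒜^op)_ℚ`, `R` the realisation, after extension of the
coefficients to an algebraically closed field, `tp T n` the `n`-th tensor power.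

Proof of (1). If the dimension is finite there is an idempotent `p ≠ 0` among the numerically trivial
endomorphisms of `M = 𝒜^(⊗ m)` (Fitting). Let `P = Mᘁ ⊗ M` and `z ∈ K_0(P)` the class of `p`. `P` is the
sum of `A` and `B`, where `B` is the image of `1 ⊗ p`, with `z` in `B`, and all endomorphisms of `B` are
numerically trivial. The powers of `P` are the sums of `2 ^ n` pieces, products of copies of `A` and of
`B`. In a piece with `i` factors `B` we insert `z` into these factors and arbitrary classes in the product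
of the others. They are independent modulo numerical equivalence, by contractions, since the product
of `i` copies of `z` is not zero: its contractions give `p ∘ ⋯ ∘ p = p ≠ 0`. Numerical equivalence does
not see the difference of `A` and `P`. (2) is the binomial theorem and the bound
`ρ(k) ≥ b ^ (2 k) / (k + 1) ^ (b ^ 2)` of the starting tree (`N64/AF`). For (3) one needs that `T` is Kimura
finite if numerically trivial endomorphisms of all its powers are nilpotent (`kimura_of_nil` in
`N64/AF`). The version for self-dual objects is in `MP_868bb7_ag.ExponentialGap`.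
-/

set_option autoImplicit false

open CategoryTheory MonoidalCategory Filter
open Pool.Agent.Y112.SR Pool.Agent.Y112.KD Pool.Agent.N64.AF
open scoped ENNReal

namespace Pool.Agent.Run7.h848.Kept.ExponentialGap6e5

universe v u w

/-- Kimura-finiteness, or exponentially many classes on the powers. -/
theorem result {C : Type u} [Category.{v} C] [Preadditive C] [MonoidalCategory C]
    [MonoidalPreadditive C] [SymmetricCategory C] [RightRigidCategory C]
    [Linear ℚ C] [MonoidalLinear ℚ C] [IsIdempotentComplete C]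
    {K : Type w} [Field K] [IsAlgClosed K] [Algebra ℚ K] {R : SuperRealisation C K}
    (hR : IsReal ℚ R) {T : C} (hT : R.CPlus T) (hb : 0 < bt R T) :
    (∀ m : ℕ, (∃ y : End (tp T m), NumTriv (y : tp T m ⟶ tp T m) ∧ ¬ IsNilpotent y) → ∀ n : ℕ,
      ((∑ i ∈ Finset.range (n + 1), n.choose i * numRank ℚ (tp (T ⊗ Tᘁ) (m * (n - i))) : ℕ) : ℕ∞) ≤
        dimE ℚ (𝟙_ C ⟶ tp (T ⊗ Tᘁ) (m * n))) ∧
    (∀ m n : ℕ, (bt R T ^ (2 * m) + 1) ^ n ≤ (m * n + 1) ^ (bt R T ^ 2) *
      ∑ i ∈ Finset.range (n + 1), n.choose i * numRank ℚ (tp (T ⊗ Tᘁ) (m * (n - i)))) ∧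
    (Pool.Agent.R905.IsKimuraFinite T ∨
      ∃ c : ℝ, (bt R T : ℝ) ^ 2 < c ∧ ∀ᶠ n : ℕ in atTop,
        ENNReal.ofReal (c ^ n) ≤ ((dimE ℚ (𝟙_ C ⟶ tp (T ⊗ Tᘁ) n) : ℕ∞) : ℝ≥0∞)) :=
  Pool.Agent.Run7.h848.XG.kimura_or_dual hR hT hb

end Pool.Agent.Run7.h848.Kept.ExponentialGap6e5
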