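import Pool.Agent.Run7.h848.XG.Fin

/-!
# Kimura finite-dimensional, or exponentially more cycles than the Betti numbers allow

Let `X` be a smooth projective variety over a field `k` (for the problem: over `ℂ`, or a model over a
number field), `b` the sum of its Betti numbers, and suppose that the sign conjecture `C⁺` holds for `X`
(the projector to the even cohomology is algebraic; for instance `X` is a hypersurface, an abelian
variety, or `k` is a finite field). Let `R(X ^ n) ⊂ CH*(X ^ n)` be subspaces of the rational Chow groups of
the powers of `X` which contain the diagonals, the projector in question and the cycles of the form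
`pt × X`, `X × pt` for one point (or a zero cycle of degree one), and are stable under the exchange of
factors, external products and compositions of correspondences: for instance ALL cycles, or the
tautological rings, generated by the diagonals and the classes of a hyperplane section (for them all
dimensions below are finite). Let `ρ(n)` be the dimension of `R(X ^ n)` modulo numerical equivalence with
respect to `R`. By a theorem of Deligne `dim R(X ^ 2n) ≥ n!` if no Schur functor kills the motive `T` of `X`;
the theorem is about the other case.

**Theorem.** (1) Let `y` be a numerically trivial endomorphism of `X ^ m` (in `R(X ^ 2m)`) which is not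
nilpotent. Then, for ALL `n`,

  `dim R(X ^ (2 m n)) ≥ ∑ i ≤ n, (n choose i) ρ(2 m (n - i))`.

(2) The sum is at least `(b ^ (2 m) + 1) ^ n / (m n + 1) ^ (b ^ 2)`, for all `m`, `n`.

(3) If `X` is not finite-dimensional in the sense of Kimura (for the cycles in `R`) then there is a real
number `c > b` with `dim R(X ^ n) ≥ c ^ n` for all sufficiently large `n`.

So `X` is finite-dimensional in the sense of Kimura if `liminf (dim R(X ^ n)) ^ (1 / n) ≤ b`. (The numerical
rank is at most `b ^ n`; its logarithm divided by `n` converges to `log b`.) In particular each smooth
projective `X` over a number field with `C⁺` for which the ranks of the Chow groups of the powers `X ^ n`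
are at most `b ^ n` times `exp (o (n))` is finite-dimensional.

The setting. `C` is the rigid symmetric monoidal pseudo-abelian category of the motives defined by the
cycles in `R` (all cycles: Chow motives over `k`, graded pieces added), `T` the motive of `X`, which is
self-dual, `tp T n` the motive of `X ^ n`, `R` the realisation in singular cohomology with coefficients
extended to an algebraically closed field.

Proof of (1). If the dimension is finite, there is an idempotent `p ≠ 0` among the numerically trivial
endomorphisms of `X ^ m` (Fitting). Let `P = X ^ m × X ^ m` and `z ∈ R(P)` the cycle `p`. The motive `P` is the sum of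
`A` and `B`, where `B` is the image of `1 × p`, with `z` in `B` and all endomorphisms of `B` numerically
trivial. The powers of `P` are the sums of `2 ^ n` pieces, products of copies of `A` and of `B`. In a piece
with `i` factors `B` we insert `z` into these factors and arbitrary cycles in the product of the others.
They are independent modulo numerical equivalence: a contraction with a cycle on the product of the
factors `A` reduces this to the claim that the product of `i` copies of `z` is not zero, and this is
true since its contractions give `p ∘ ⋯ ∘ p = p ≠ 0`. Numerical equivalence does not see the difference of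
`A` and `P`. (2) is the binomial theorem and the bound `ρ(2 k) ≥ b ^ (2 k) / (k + 1) ^ (b ^ 2)` of the starting
tree (`N64/AF`). For (3) one needs that `X` is finite-dimensional if numerically trivial
endomorphisms of all powers of `X` are nilpotent (`kimura_of_nil` in `N64/AF`).
-/

set_option autoImplicit false

open CategoryTheory MonoidalCategory Filter
open Pool.Agent.Y112.SR Pool.Agent.Y112.KD Pool.Agent.N64.AF
open scoped ENNReal

namespace Pool.Agent.Run7.h848.Kept.ExponentialGap868

universe v u w

/-- Kimura finite-dimensionality, or exponentially many cycles on the powers. -/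
theorem result {C : Type u} [Category.{v} C] [Preadditive C] [MonoidalCategory C]
    [MonoidalPreadditive C] [SymmetricCategory C] [RightRigidCategory C]
    [Linear ℚ C] [MonoidalLinear ℚ C] [IsIdempotentComplete C]
    {K : Type w} [Field K] [IsAlgClosed K] [Algebra ℚ K] {R : SuperRealisation C K}
    {T : C} [ExactPairing T T] (h : IsPow ℚ R T) :
    (∀ m : ℕ, (∃ y : End (tp T m), NumTriv (y : tp T m ⟶ tp T m) ∧ ¬ IsNilpotent y) → ∀ n : ℕ,
      ((∑ i ∈ Finset.range (n + 1), n.choose i * numRank ℚ (tp T (2 * m * (n - i))) : ℕ) : ℕ∞) ≤
        dimE ℚ (𝟙_ C ⟶ tp T (2 * m * n))) ∧
    (∀ m n : ℕ, (bt R T ^ (2 * m) + 1) ^ n ≤ (m * n + 1) ^ (bt R T ^ 2) *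
      ∑ i ∈ Finset.range (n + 1), n.choose i * numRank ℚ (tp T (2 * m * (n - i)))) ∧
    (Pool.Agent.R905.IsKimuraFinite T ∨
      ∃ c : ℝ, (bt R T : ℝ) < c ∧ ∀ᶠ n : ℕ in atTop,
        ENNReal.ofReal (c ^ n) ≤ ((dimE ℚ (𝟙_ C ⟶ tp T n) : ℕ∞) : ℝ≥0∞)) := by
  refine ⟨fun m hm n => ?_, Pool.Agent.Run7.h848.XG.sum_ge h, ?_⟩
  · obtain ⟨y, hy, hn⟩ := hm
    exact Pool.Agent.Run7.h848.XG.many h m (fun h1 => hn (h1 y hy)) n
  · by_cases hT : Pool.Agent.R905.IsKimuraFinite T
    · exact Or.inl hT
    · obtain ⟨m, -, -, h1⟩ := Pool.Agent.Run7.h848.XG.kimura_or h hT
      exact Or.inr h1

end Pool.Agent.Run7.h848.Kept.ExponentialGap868
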